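import Pool.Agent.Lib.MP_354b3e_lc.Main
import Pool.Agent.Lib.MP_354b3e_lc.Reduction

/-!
MP_354b3e_lc, own statement: the answer to Q1 is no. Here the vertex set is any computable set of natural numbers, the edge
relation is any computable symmetric irreflexive relation on it, and the neighbourhood map is any partial function recursive
in A that gives the canonical code of the neighbourhood of every vertex.
-/

set_option autoImplicit false
open Classical

namespace Pool.Agent.Results.MP_354b3e_lc.BelowGenericFinite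

open Encodable Denumerable

/-- A function recursive in `O`, changed to a constant outside a computable set. -/
theorem recursiveIn_extend (O : Set (ℕ →. ℕ)) (g : ℕ →. ℕ) (hg : Nat.RecursiveIn O g) (V : Set ℕ)
    (hV : ComputablePred (fun x : ℕ => x ∈ V)) (a : ℕ) (h : ℕ → ℕ)
    (h1 : ∀ x, x ∈ V → h x ∈ g x) (h2 : ∀ x, x ∉ V → h x = a) :
    Nat.RecursiveIn O (fun x => Part.some (h x)) := by
  obtain ⟨χ, hχ, hχ2⟩ := ComputablePred.computable_iff.1 hV
  have hχ3 : ∀ x, χ x = true ↔ x ∈ V := by
    intro x
    have := congrFun hχ2 x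
    simp only [eq_iff_iff] at this
    exact this.symm
  have hpre : Nat.RecursiveIn O (fun x : ℕ => Part.some (Nat.pair x (bif χ x then 1 else 0))) :=
    Nat.Partrec.recursiveIn (Partrec.nat_iff.1
      (Primrec₂.natPair.to_comp.comp Computable.id
        (Computable.cond hχ (Computable.const 1) (Computable.const 0))))
  have hbase : Nat.RecursiveIn O (fun _ => Part.some a) :=
    Nat.Partrec.recursiveIn (Partrec.nat_iff.1 (Computable.const a))
  have hstep : Nat.RecursiveIn O (fun z : ℕ => g z.unpair.1) :=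
    (Nat.RecursiveIn.comp hg Nat.RecursiveIn.left).of_eq fun z => by
      simp
  have hrec := Nat.RecursiveIn.prec hbase hstep
  refine (Nat.RecursiveIn.comp hrec hpre).of_eq_tot ?_
  intro x
  simp only [Part.bind_eq_bind, Part.mem_bind_iff, Part.mem_some_iff]
  refine ⟨_, rfl, ?_⟩
  by_cases hx : x ∈ V
  · have e1 : χ x = true := (hχ3 x).2 hx
    simp only [e1, cond_true, Nat.unpair_pair]
    change h x ∈ (Part.some a).bind (fun _ => g x)
    rw [Part.bind_some]
    exact h1 x hx
  · have e1 : χ x = false := by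
      rw [← Bool.not_eq_true, hχ3]
      exact hx
    simp only [e1, cond_false, Nat.unpair_pair]
    rw [h2 x hx]
    exact Part.mem_some a

/-- There is a noncomputable set `A`, Turing reducible to the halting set, such that every graph with computable vertex set
`V` and computable edge set `E` whose neighbourhood map is computable from `A`, and which is properly 2-colourable, has a
computable proper 4-colouring. -/
theorem result :
    ∃ A : Set ℕ,
      ¬ ComputablePred (fun n : ℕ => n ∈ A) ∧
      TuringReducible (fun n : ℕ => Part.some (if n ∈ A then (1 : ℕ) else 0))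
        (fun n : ℕ => Part.some
          (if ((Denumerable.ofNat Nat.Partrec.Code n).eval n).Dom then (1 : ℕ) else 0)) ∧
      ∀ (V : Set ℕ) (E : Set (ℕ × ℕ)),
        ComputablePred (fun x : ℕ => x ∈ V) →
        ComputablePred (fun p : ℕ × ℕ => p ∈ E) →
        (∀ x y : ℕ, (x, y) ∈ E → x ∈ V ∧ y ∈ V ∧ (y, x) ∈ E) →
        (∃ g : ℕ →. ℕ,
          TuringReducible g (fun n : ℕ => Part.some (if n ∈ A then (1 : ℕ) else 0)) ∧
          ∀ x ∈ V, ∃ s : Finset ℕ, (∀ y : ℕ, y ∈ s ↔ (x, y) ∈ E) ∧ Encodable.encode s ∈ g x) →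
        (∃ c : ℕ → Fin 2, ∀ x y : ℕ, (x, y) ∈ E → c x ≠ c y) →
        ∃ c : ℕ → ℕ, Computable c ∧ (∀ x ∈ V, c x < 4) ∧
          ∀ x y : ℕ, (x, y) ∈ E → c x ≠ c y := by
  refine ⟨Pool.Agent.Lib.MP354b3e.genSet, Pool.Agent.Lib.MP354b3e.not_computable_genSet,
    Pool.Agent.Lib.MP354b3e.genSet_reducible, ?_⟩
  rintro V E hV hE hVE ⟨g, hg, hgE⟩ ⟨c2, hc2⟩
  let G : SimpleGraph ℕ :=
    { Adj := fun x y => (x, y) ∈ E
      symm := ⟨fun x y h => (hVE x y h).2.2⟩
      loopless := ⟨fun x h => hc2 x x h rfl⟩ }
  have hG : ComputablePred (fun p : ℕ × ℕ => G.Adj p.1 p.2) := hE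
  have hcol : G.Colorable 2 := ⟨SimpleGraph.Coloring.mk c2 fun {x y} h => hc2 x y h⟩
  choose s hs1 hs2 using hgE
  let N : ℕ → Finset ℕ := fun x => if h : x ∈ V then s x h else ∅
  have hN : ∀ x y : ℕ, G.Adj x y ↔ y ∈ N x := by
    intro x y
    by_cases hx : x ∈ V
    · have e1 : N x = s x hx := dif_pos hx
      rw [e1, hs1 x hx y]
    · have e1 : N x = ∅ := dif_neg hx
      rw [e1]
      constructor
      · intro h
        exact absurd (hVE x y h).1 hx
      · intro h
        exact absurd h (Finset.notMem_empty y)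
  have hred : TuringReducible (fun x : ℕ => Part.some (Encodable.encode (N x)))
      (fun n : ℕ => Part.some (if n ∈ Pool.Agent.Lib.MP354b3e.genSet then (1 : ℕ) else 0)) := by
    refine RecursiveIn.iff_nat.2 ?_
    refine recursiveIn_extend _ g (RecursiveIn.iff_nat.1 hg) V hV
      (Encodable.encode (∅ : Finset ℕ)) (fun x => Encodable.encode (N x)) ?_ ?_
    · intro x hx
      have e1 : N x = s x hx := dif_pos hx
      simp only [e1]
      exact hs2 x hx
    · intro x hx
      have e1 : N x = ∅ := dif_neg hx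
      simp only [e1]
  obtain ⟨b, hb, hbG⟩ := Pool.Agent.Lib.MP354b3e.exists_bound G hG N hN hred
  obtain ⟨c, hc, hc4, hcG⟩ :=
    Pool.Agent.Lib.MP354b3e.exists_computable_colouring G hG hcol b hb hbG
  exact ⟨c, hc, fun x _ => hc4 x, fun x y h => hcG x y h⟩

end Pool.Agent.Results.MP_354b3e_lc.BelowGenericFinite
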